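import Pool.Agent.H792R2.CE.D7

/-!
Polynomials: partial fractions with a good degree bound, the invariance of the Cauchy series, and
its local integrability.
-/

set_option autoImplicit false

open Filter Topology Metric Set Polynomial MeasureTheory
open scoped OnePoint ENNReal

namespace Pool.Agent.X325.EP

open Pool.Agent.H792R2.CE Pool.Agent.H792R2.CE.D1x Pool.Agent.H792R2.CE.D3x

theorem rf_one (P : ℂ[X]) : rf P 1 = fun z => P.eval z := by
  ext z
  simp [rf]

theorem wr_one (P : ℂ[X]) : wr P 1 = derivative P := by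
  simp [wr]

/-- partial fractions. -/
theorem pf {P Q : ℂ[X]} {d : ℕ} (hQ : Q = 1) (hd : 1 ≤ d) (hP : P.natDegree = d) {x : ℂ}
    (hs : ∀ w, (P - C x * Q).eval w = 0 → (wr P Q).eval w ≠ 0) :
    ∃ S : ℂ[X], S.natDegree ≤ d - 1 ∧ ∀ z, (P - C x * Q).eval z ≠ 0 →
      Q.eval z ^ 3 / (P - C x * Q).eval z = S.eval z + (wr P Q).eval z *
        ∑ w ∈ (P - C x * Q).roots.toFinset, Q.eval w ^ 4 / (wr P Q).eval w ^ 2 / (z - w) := by
  have hx : (P - C x * Q).natDegree = d := by
    rw [hQ, mul_one, natDegree_sub_C, hP]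
  have hx0 : P - C x * Q ≠ 0 := by
    intro h
    rw [h, natDegree_zero] at hx
    omega
  have hwr : ∀ w, (P - C x * Q).eval w = 0 → (wr P Q).eval w =
      Q.eval w * (derivative (P - C x * Q)).eval w := fun w hw => wr_root hw
  have hNd : (wr P Q).natDegree ≤ d - 1 := by
    rw [hQ, wr_one]
    have := natDegree_derivative_le P
    omega
  have hQd : Q.natDegree = 0 := by rw [hQ]; simp
  set D : ℂ[X] := P - C x * Q with hD
  set N : ℂ[X] := wr P Q with hN
  have hs' : ∀ w, D.eval w = 0 → (derivative D).eval w ≠ 0 := by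
    intro w hw h0
    apply hs w hw
    rw [hwr w hw, h0, mul_zero]
  have hmem : ∀ w ∈ D.roots.toFinset, D.eval w = 0 := by
    intro w hw
    rw [Multiset.mem_toFinset, mem_roots hx0] at hw
    exact hw
  set A : ℂ[X] := Q ^ 3 - N * ∑ w ∈ D.roots.toFinset,
    C (Q.eval w ^ 4 / N.eval w ^ 2) * (D /ₘ (X - C w)) with hA
  have hAv : ∀ w0, D.eval w0 = 0 → A.eval w0 = 0 := by
    intro w0 hw0
    have hw0m : w0 ∈ D.roots.toFinset := by
      rw [Multiset.mem_toFinset, mem_roots hx0]
      exact hw0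
    rw [hA, eval_sub, eval_pow, eval_mul, eval_finset_sum, Finset.sum_eq_single w0]
    · rw [eval_mul, eval_C, div_eval_self hw0, hwr w0 hw0]
      have h1 : Q.eval w0 ≠ 0 := by
        intro h0
        apply hs w0 hw0
        rw [hwr w0 hw0, h0, zero_mul]
      have h2 := hs' w0 hw0
      field_simp
      ring
    · intro w hw hne
      rw [eval_mul, div_eval_other (hmem w hw) hw0 (Ne.symm hne), mul_zero]
    · intro h
      exact absurd hw0m h
  obtain ⟨S, hS⟩ := dvd_of_vanish hx0 hs' hAv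
  refine ⟨S, ?_, ?_⟩
  · by_cases hS0 : S = 0
    · rw [hS0, natDegree_zero]
      exact Nat.zero_le _
    have h1 : A.natDegree = D.natDegree + S.natDegree := by
      rw [hS, natDegree_mul hx0 hS0]
    have h2 : A.natDegree ≤ 2 * d - 1 := by
      rw [hA]
      refine (natDegree_sub_le _ _).trans (max_le ?_ ?_)
      · refine natDegree_pow_le.trans ?_
        rw [hQd]
        omega
      · refine natDegree_mul_le.trans ?_
        have h3 : (∑ w ∈ D.roots.toFinset,
            C (Q.eval w ^ 4 / N.eval w ^ 2) * (D /ₘ (X - C w))).natDegree ≤ d := by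
          refine natDegree_sum_le_of_forall_le _ _ fun w _ => ?_
          refine natDegree_mul_le.trans ?_
          rw [natDegree_C, zero_add, natDegree_divByMonic _ (monic_X_sub_C w), hx]
          exact Nat.sub_le _ _
        omega
    omega
  · intro z hz
    have h1 : Q.eval z ^ 3 = D.eval z * S.eval z + N.eval z * ∑ w ∈ D.roots.toFinset,
        Q.eval w ^ 4 / N.eval w ^ 2 * (D /ₘ (X - C w)).eval z := by
      have h2 := congrArg (eval z) hS
      rw [hA, eval_sub, eval_pow, eval_mul, eval_mul, eval_finset_sum] at h2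
      simp only [eval_mul, eval_C] at h2
      linear_combination h2
    rw [h1, add_div, mul_div_cancel_left₀ _ hz, mul_div_assoc, Finset.sum_div]
    congr 2
    refine Finset.sum_congr rfl fun w hw => ?_
    have h3 : (X - C w) * (D /ₘ (X - C w)) = D := mul_divByMonic_eq_iff_isRoot.2 (hmem w hw)
    have h4 := congrArg (eval z) h3
    rw [eval_mul, eval_sub, eval_X, eval_C] at h4
    have h5 : z - w ≠ 0 := by
      intro h0
      rw [h0, zero_mul] at h4
      exact hz h4.symm
    rw [← h4]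
    have h6 : (D /ₘ (X - C w)).eval z ≠ 0 := by
      intro h0
      rw [h0, mul_zero] at h4
      exact hz h4.symm
    field_simp

/-- invariance of the Cauchy series under the Ruelle operator, with any degree bound -/
theorem inv {P Q : ℂ[X]} {D : ℕ} {c : ℂ} {v α : ℕ → ℂ} (hc : (wr P Q).eval c = 0)
    (hQc : Q.eval c ≠ 0) (hv0 : v 0 = rf P Q c) (hvs : ∀ j, v (j + 1) = rf P Q (v j))
    (hα0 : α 0 = 1) (hαs : ∀ j, α (j + 1) = α j * (Q.eval (v j) ^ 2 / (wr P Q).eval (v j)))
    (hQv : ∀ j, Q.eval (v j) ≠ 0) (hNv : ∀ j, (wr P Q).eval (v j) ≠ 0)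
    (hT : ∀ S : ℂ[X], S.natDegree ≤ D →
      (Summable fun j => S.eval (v j) / (wr P Q).eval (v j) * α j) ∧
      S.eval c / Q.eval c ^ 2 + ∑' j, S.eval (v j) / (wr P Q).eval (v j) * α j = 0)
    {x : ℂ} (hxv : ∀ j, x ≠ v j)
    (hsum : Summable fun j => α j / (x - v j))
    (hsumw : ∀ w, (P - C x * Q).eval w = 0 → Summable fun j => α j / (w - v j))
    (hpf : ∃ S : ℂ[X], S.natDegree ≤ D ∧ ∀ z, (P - C x * Q).eval z ≠ 0 →
      Q.eval z ^ 3 / (P - C x * Q).eval z = S.eval z + (wr P Q).eval z *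
        ∑ w ∈ (P - C x * Q).roots.toFinset, Q.eval w ^ 4 / (wr P Q).eval w ^ 2 / (z - w)) :
    phi α v x = ∑ w ∈ (P - C x * Q).roots.toFinset,
      Q.eval w ^ 4 / (wr P Q).eval w ^ 2 * phi α v w := by
  obtain ⟨S, hSd, hS⟩ := hpf
  obtain ⟨hTs, hT0⟩ := hT S hSd
  set W : Finset ℂ := (P - C x * Q).roots.toFinset with hW
  have hroot : ∀ w ∈ W, (P - C x * Q).eval w = 0 := by
    intro w hw
    rw [hW, Multiset.mem_toFinset] at hw
    exact (mem_roots'.1 hw).2
  -- values of `D` along the orbit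
  have hD : ∀ z y : ℂ, Q.eval z ≠ 0 → y = rf P Q z → (P - C x * Q).eval z = Q.eval z * (y - x) := by
    intro z y hz hy
    rw [hy, rf]
    simp only [eval_sub, eval_mul, eval_C]
    field_simp
  -- at the critical point
  have hv0x : v 0 - x ≠ 0 := sub_ne_zero.2 (hxv 0).symm
  have hDc : (P - C x * Q).eval c = Q.eval c * (v 0 - x) := hD c (v 0) hQc hv0
  have hSc : S.eval c / Q.eval c ^ 2 = 1 / (v 0 - x) := by
    have h := hS c (by rw [hDc]; exact mul_ne_zero hQc hv0x)
    rw [hc, zero_mul, add_zero, hDc] at h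
    rw [← h]
    field_simp
  -- at the points of the orbit
  have hstep : ∀ j, α (j + 1) / (v (j + 1) - x) =
      S.eval (v j) / (wr P Q).eval (v j) * α j +
        ∑ w ∈ W, Q.eval w ^ 4 / (wr P Q).eval w ^ 2 * (α j / (v j - w)) := by
    intro j
    have hvx : v (j + 1) - x ≠ 0 := sub_ne_zero.2 (hxv (j + 1)).symm
    have hDj : (P - C x * Q).eval (v j) = Q.eval (v j) * (v (j + 1) - x) :=
      hD (v j) (v (j + 1)) (hQv j) (hvs j)
    have h := hS (v j) (by rw [hDj]; exact mul_ne_zero (hQv j) hvx)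
    have h2 : Q.eval (v j) ^ 2 / (v (j + 1) - x) = S.eval (v j) + (wr P Q).eval (v j) *
        ∑ w ∈ W, Q.eval w ^ 4 / (wr P Q).eval w ^ 2 / (v j - w) := by
      rw [← h, hDj]
      have := hQv j
      field_simp
    have h3 : α (j + 1) / (v (j + 1) - x) =
        α j / (wr P Q).eval (v j) * (Q.eval (v j) ^ 2 / (v (j + 1) - x)) := by
      rw [hαs j]
      ring
    rw [h3, h2, mul_add]
    congr 1
    · ring
    · have hN := hNv j
      rw [← mul_assoc, div_mul_cancel₀ _ hN, Finset.mul_sum]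
      exact Finset.sum_congr rfl fun w _ => by ring
  -- summation
  have hsw : ∀ w ∈ W, Summable fun j => Q.eval w ^ 4 / (wr P Q).eval w ^ 2 * (α j / (v j - w)) := by
    intro w hw
    apply Summable.mul_left
    have h := (hsumw w (hroot w hw)).neg
    refine h.congr fun j => ?_
    rw [← div_neg, neg_sub]
  have htw : ∀ w ∈ W, ∑' j, Q.eval w ^ 4 / (wr P Q).eval w ^ 2 * (α j / (v j - w)) =
      -(Q.eval w ^ 4 / (wr P Q).eval w ^ 2 * phi α v w) := by
    intro w hw
    rw [tsum_mul_left, phi, ← mul_neg, ← tsum_neg]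
    congr 1
    refine tsum_congr fun j => ?_
    rw [← div_neg, neg_sub]
  have hL : ∑' j, α (j + 1) / (v (j + 1) - x) = -(phi α v x) + 1 / (x - v 0) := by
    have h := hsum.tsum_eq_zero_add
    rw [hα0] at h
    rw [phi, h]
    have h2 : ∑' j, α (j + 1) / (v (j + 1) - x) = -∑' j, α (j + 1) / (x - v (j + 1)) := by
      rw [← tsum_neg]
      refine tsum_congr fun j => ?_
      rw [← div_neg, neg_sub]
    rw [h2]
    ring
  have hR : ∑' j, (S.eval (v j) / (wr P Q).eval (v j) * α j +
        ∑ w ∈ W, Q.eval w ^ 4 / (wr P Q).eval w ^ 2 * (α j / (v j - w))) =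
      -(1 / (v 0 - x)) + ∑ w ∈ W, -(Q.eval w ^ 4 / (wr P Q).eval w ^ 2 * phi α v w) := by
    rw [hTs.tsum_add (summable_sum hsw), Summable.tsum_finsetSum hsw,
      Finset.sum_congr rfl htw]
    congr 1
    rw [← hSc]
    exact eq_neg_of_add_eq_zero_right hT0
  have hfin : -(phi α v x) + 1 / (x - v 0) =
      -(1 / (v 0 - x)) + ∑ w ∈ W, -(Q.eval w ^ 4 / (wr P Q).eval w ^ 2 * phi α v w) := by
    rw [← hL, ← hR]
    exact tsum_congr hstep
  have hneg : 1 / (x - v 0) = -(1 / (v 0 - x)) := by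
    rw [← neg_sub (v 0) x, div_neg]
  rw [hneg, add_comm, Finset.sum_neg_distrib] at hfin
  have := add_left_cancel hfin
  exact neg_injective this

/-- the Cauchy series is measurable -/
theorem phi_meas {α v : ℕ → ℂ} : Measurable (phi α v) := by
  have hmeas : Measurable fun x : ℂ => ∑' j, ‖α j / (x - v j)‖ₑ :=
    Measurable.ennreal_tsum fun j => (meas_term α v j).enorm
  set S : Set ℂ := {x | ∑' j, ‖α j / (x - v j)‖ₑ < ⊤} with hS
  have hSm : MeasurableSet S := measurableSet_lt hmeas measurable_const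
  have hF : ∀ n : ℕ, Measurable (S.indicator fun x => ∑ j ∈ Finset.range n, α j / (x - v j)) := by
    intro n
    exact (Finset.measurable_sum _ fun j _ => meas_term α v j).indicator hSm
  refine measurable_of_tendsto_metrizable hF ?_
  rw [tendsto_pi_nhds]
  intro x
  by_cases hx : x ∈ S
  · simp only [indicator_of_mem hx]
    have hs : Summable fun j => α j / (x - v j) := by
      apply Summable.of_norm
      exact (summ_iff _).mp (ne_of_lt hx)
    exact hs.hasSum.tendsto_sum_nat
  · simp only [indicator_of_notMem hx]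
    have hs : ¬ Summable fun j => α j / (x - v j) := by
      intro hs
      apply hx
      rw [← summable_norm_iff, ← summ_iff] at hs
      exact lt_top_iff_ne_top.mpr hs
    have : phi α v x = 0 := tsum_eq_zero_of_not_summable hs
    rw [this]
    exact tendsto_const_nhds

/-- the Cauchy series is locally integrable -/
theorem phi_loc {α v : ℕ → ℂ} (hα : Summable fun j => ‖α j‖)
    (hker : ∀ R : ℝ, ∃ C : ℝ≥0∞, C ≠ ⊤ ∧ ∀ v : ℂ, ∫⁻ x in ball (0 : ℂ) R, ‖(x - v)⁻¹‖ₑ ≤ C)
    (R : ℝ) : ∫⁻ x in ball (0 : ℂ) R, ‖phi α v x‖ₑ ≠ ⊤ := by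
  refine ne_top_of_le_ne_top (ball_fin (v := v) hα hker R) (lintegral_mono fun x => ?_)
  unfold phi
  by_cases hs : Summable fun j => ‖α j / (x - v j)‖
  · rw [← ofReal_norm]
    calc ENNReal.ofReal ‖∑' j, α j / (x - v j)‖
        ≤ ENNReal.ofReal (∑' j, ‖α j / (x - v j)‖) :=
          ENNReal.ofReal_le_ofReal (norm_tsum_le_tsum_norm hs)
      _ = ∑' j, ENNReal.ofReal ‖α j / (x - v j)‖ :=
          ENNReal.ofReal_tsum_of_nonneg (fun _ => norm_nonneg _) hs
      _ = ∑' j, ‖α j / (x - v j)‖ₑ := by simp only [ofReal_norm]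
  · have : ∑' j, ‖α j / (x - v j)‖ₑ = ⊤ := by
      by_contra hcon
      exact hs ((summ_iff _).mp hcon)
    change _ ≤ ∑' j, ‖α j / (x - v j)‖ₑ
    rw [this]
    exact le_top

end Pool.Agent.X325.EP
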