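import Pool.Agent.X325.EP.A

/-!
Polynomials: a summable critical orbit is moved by some perturbation of degree less than the degree
of the polynomial.
-/

set_option autoImplicit false

open Filter Topology Metric Set Polynomial MeasureTheory
open scoped OnePoint ENNReal

namespace Pool.Agent.X325.EP

open Pool.Agent.H792R2.CE

/-- **Transversality.** A summable critical orbit is moved by some perturbation. -/
theorem transversal_poly {P Q : ℂ[X]} {d : ℕ} (hd : 2 ≤ d) (hQ1 : Q = 1)
    (hPd : P.natDegree = d) {Rr : ℝ} (hRr : ∀ z : ℂ, Rr ≤ ‖z‖ → ‖z‖ ≤ ‖P.eval z‖)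
    {c : ℂ} (hc : (wr P Q).eval c = 0)
    (hN : wr P Q ≠ 0) {K : Set ℂ} (hK : IsCompact K) (hKc : ∀ j, (rf P Q)^[j] c ∈ K)
    (hKQ : ∀ z ∈ K, Q.eval z ≠ 0) (hne : ∀ j, deriv ((rf P Q)^[j]) (rf P Q c) ≠ 0)
    (hsum : Summable fun j => ‖deriv ((rf P Q)^[j]) (rf P Q c)‖⁻¹)
    {A₀ : Set ℂ} (hA₀o : IsOpen A₀) (hA₀d : Dense A₀) (hA₀K : ∀ x ∈ A₀, x ∉ K)
    (hwand : ∀ᵐ x : ℂ, x ∈ A₀ → ∃ U : Set ℂ, x ∈ U ∧ IsOpen U ∧
      ∀ y ∈ U, ∀ k, 0 < k → (rf P Q)^[k] y ∉ U)
    (hvol : volume (closure (Set.range fun j => (rf P Q)^[j] (rf P Q c))) = 0) :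
    ∃ S : ℂ[X], S.natDegree ≤ d - 1 ∧ ∑' j, S.eval ((rf P Q)^[j] c) /
      Q.eval ((rf P Q)^[j] c) ^ 2 / deriv ((rf P Q)^[j]) (rf P Q c) ≠ 0 := by
  classical
  by_contra hcon
  push Not at hcon
  obtain ⟨g, hg⟩ : ∃ g, g = rf P Q := ⟨_, rfl⟩
  rw [← hg] at hKc hne hsum hwand hcon hvol
  set v : ℕ → ℂ := fun j => g^[j] (g c) with hv
  set α : ℕ → ℂ := fun j => (deriv (g^[j]) (g c))⁻¹ with hα
  have hvc : ∀ j, v j = g^[j + 1] c := fun j => (Function.iterate_succ_apply g j c).symm
  have hvK : ∀ j, v j ∈ K := fun j => by rw [hvc]; exact hKc _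
  have hQv : ∀ j, Q.eval (v j) ≠ 0 := fun j => hKQ _ (hvK j)
  have hQc : Q.eval c ≠ 0 := by
    have := hKQ _ (hKc 0)
    simpa using this
  have hvs : ∀ j, v (j + 1) = rf P Q (v j) := by
    intro j
    simp only [hv, Function.iterate_succ_apply', hg]
  have hderiv : ∀ j, deriv (g^[j + 1]) (g c) = (wr P Q).eval (v j) / Q.eval (v j) ^ 2 *
      deriv (g^[j]) (g c) := by
    intro j
    have h1 := rf_iter_deriv_succ (P := P) (Q := Q) (z := g c) j (fun i _ => by
      rw [← hg]; exact hQv i)
    rw [← hg] at h1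
    exact h1
  have hNv : ∀ j, (wr P Q).eval (v j) ≠ 0 := by
    intro j h0
    have h1 := hderiv j
    rw [h0, zero_div, zero_mul] at h1
    exact hne _ h1
  have hα0 : α 0 = 1 := by
    simp [hα]
  have hαs : ∀ j, α (j + 1) = α j * (Q.eval (v j) ^ 2 / (wr P Q).eval (v j)) := by
    intro j
    simp only [hα]
    rw [hderiv j, mul_inv, inv_div, mul_comm]
  have hαn : Summable fun j => ‖α j‖ := by
    simpa only [hα, norm_inv] using hsum
  have hαsum : Summable α := hαn.of_norm
  -- the functional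
  have hT : ∀ S : ℂ[X], S.natDegree ≤ d - 1 →
      (Summable fun j => S.eval (v j) / (wr P Q).eval (v j) * α j) ∧
      S.eval c / Q.eval c ^ 2 + ∑' j, S.eval (v j) / (wr P Q).eval (v j) * α j = 0 := by
    intro S hS
    have hterm : ∀ j, S.eval (v j) / (wr P Q).eval (v j) * α j =
        S.eval (v j) / Q.eval (v j) ^ 2 * α (j + 1) := by
      intro j
      rw [hαs]
      have := hQv j
      have := hNv j
      field_simp
    obtain ⟨B, hB⟩ := hK.exists_bound_of_continuousOn
      (f := fun z => S.eval z / Q.eval z ^ 2)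
      (S.continuous.continuousOn.div (Q.continuous.continuousOn.pow 2)
        fun z hz => pow_ne_zero _ (hKQ z hz))
    have hsm : Summable fun j => S.eval (v j) / (wr P Q).eval (v j) * α j := by
      have h1 : Summable fun j => B * ‖α (j + 1)‖ :=
        ((summable_nat_add_iff 1).2 hαn).mul_left B
      refine Summable.of_norm_bounded h1 fun j => ?_
      rw [hterm, norm_mul]
      exact mul_le_mul_of_nonneg_right (hB _ (hvK j)) (norm_nonneg _)
    refine ⟨hsm, ?_⟩
    set a : ℕ → ℂ := fun j => S.eval (g^[j] c) / Q.eval (g^[j] c) ^ 2 / deriv (g^[j]) (g c) with ha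
    have ha1 : ∀ j, a (j + 1) = S.eval (v j) / (wr P Q).eval (v j) * α j := by
      intro j
      rw [hterm]
      simp only [ha, hα, ← hvc]
      rw [div_eq_mul_inv]
    have ha0 : a 0 = S.eval c / Q.eval c ^ 2 := by
      simp [ha]
    have hasum : Summable a := by
      rw [← summable_nat_add_iff 1]
      exact hsm.congr fun j => (ha1 j).symm
    have h2 : ∑' j, a j = 0 := hcon S hS
    rw [hasum.tsum_eq_zero_add, ha0] at h2
    rw [← h2]
    congr 1
    exact tsum_congr fun j => (ha1 j).symm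
  obtain ⟨M, hM⟩ := hK.isBounded.exists_norm_le
  have hker := D3a_kernel
  have hφm : Measurable (phi α v) := phi_meas
  have hgood := D3b_ae (v := v) hαn hker
  have hgm : Measurable g := by rw [hg]; exact rf_measurable P Q
  have hNfin : {z : ℂ | (wr P Q).eval z = 0}.Finite := by
    refine ((wr P Q).roots.toFinset.finite_toSet).subset ?_
    intro z hz
    simp only [Finset.mem_coe, Multiset.mem_toFinset, Polynomial.mem_roots hN]
    exact hz
  have hPQ : IsCoprime P Q := by rw [hQ1]; exact isCoprime_one_right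
  have hnotboth : ∀ w, Q.eval w = 0 → P.eval w ≠ 0 := by
    intro w h1 h2
    rw [hQ1] at h1
    simp at h1
  -- the pointwise inequality
  have hineq : ∀ᵐ x : ℂ, ‖phi α v x‖ₑ ≤ ∑ w ∈ (P - C x * Q).roots.toFinset,
      ‖Q.eval w ^ 4 / (wr P Q).eval w ^ 2‖ₑ * ‖phi α v w‖ₑ := by
    have hx1 : ∀ᵐ x : ℂ, x ∉ ({(0 : ℂ)} : Set ℂ) ∪ rf P Q '' {z : ℂ | (wr P Q).eval z = 0} ∪
        Set.range v := by
      have h1 : (({(0 : ℂ)} : Set ℂ) ∪ rf P Q '' {z : ℂ | (wr P Q).eval z = 0} ∪
        Set.range v).Countable :=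
        ((Set.countable_singleton _).union (hNfin.image _).countable).union (Set.countable_range v)
      exact h1.ae_notMem volume
    have hx2 : ∀ᵐ x : ℂ, x ∉ rf P Q '' ({w : ℂ | ¬ Summable fun j => ‖α j / (w - v j)‖} ∩
        {w | Q.eval w ≠ 0}) := by
      have h1 : volume (rf P Q '' ({w : ℂ | ¬ Summable fun j => ‖α j / (w - v j)‖} ∩
        {w | Q.eval w ≠ 0})) = 0 := by
        refine addHaar_image_eq_zero_of_differentiableOn_of_addHaar_eq_zero volume ?_ ?_
        · intro w hw
          exact ((rf_hasDerivAt hw.2).differentiableAt.restrictScalars ℝ).differentiableWithinAt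
        · exact measure_mono_null Set.inter_subset_left (ae_iff.1 hgood)
      exact measure_eq_zero_iff_ae_notMem.1 h1
    filter_upwards [hgood, hx1, hx2] with x hx hx1 hx2
    have hxc : ∀ w, (wr P Q).eval w = 0 → rf P Q w ≠ x := fun w hw h =>
      hx1 (Or.inl (Or.inr ⟨w, hw, h⟩))
    have hxv : ∀ j, x ≠ v j := fun j h => hx1 (Or.inr ⟨j, h.symm⟩)
    have hroot : ∀ w, (P - C x * Q).eval w = 0 → Q.eval w ≠ 0 ∧ rf P Q w = x := by
      intro w hw
      simp only [Polynomial.eval_sub, Polynomial.eval_mul, Polynomial.eval_C] at hw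
      have hQw : Q.eval w ≠ 0 := by
        intro h0
        rw [h0, mul_zero, sub_zero] at hw
        exact hnotboth w h0 hw
      refine ⟨hQw, ?_⟩
      rw [rf, div_eq_iff hQw]
      exact sub_eq_zero.1 hw
    have hdeg : (P - C x * Q).natDegree = d := by
      rw [hQ1, mul_one, natDegree_sub_C, hPd]
    have hx0 : P - C x * Q ≠ 0 := by
      intro h
      rw [h] at hdeg
      simp at hdeg
      omega
    have hpf := pf hQ1 (by omega) hPd (fun w hw h0 => hxc w h0 (hroot w hw).2)
    have h1 := inv hc hQc (v := v) (α := α) (by simp [hv, hg]) hvs hα0 hαs hQv hNv hT hxv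
      hx.of_norm (fun w hw => by
        have h2 := hroot w hw
        by_contra h3
        apply hx2
        refine ⟨w, ⟨fun h4 => h3 h4.of_norm, h2.1⟩, h2.2⟩) hpf
    rw [h1]
    refine (enorm_sum_le _ _).trans (le_of_eq ?_)
    exact Finset.sum_congr rfl fun w _ => enorm_mul _ _
  have hclK : closure (Set.range v) ⊆ K :=
    closure_minimal (Set.range_subset_iff.2 hvK) hK.isClosed
  have hφe : Measurable fun x => ‖phi α v x‖ₑ := hφm.enorm
  -- the measure
  have hφA : ∀ x ∈ A₀, phi α v x = 0 := by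
    intro x₀ hx₀
    obtain ⟨R', hR'1, hR'2⟩ : ∃ R' : ℝ, Rr ≤ R' ∧ ‖x₀‖ < R' :=
      ⟨max Rr (‖x₀‖ + 1), le_max_left _ _, lt_of_lt_of_le (by linarith) (le_max_right _ _)⟩
    have hφi := phi_loc (v := v) hαn hker R'
    set m : Measure ℂ := (volume.restrict (ball (0 : ℂ) R')).withDensity
      (fun x => ‖phi α v x‖ₑ) with hm
    have hfinm : IsFiniteMeasure m := by
      refine isFiniteMeasure_withDensity hφi
    have hmA : ∀ A, MeasurableSet A → m A = ∫⁻ x in A ∩ ball (0 : ℂ) R', ‖phi α v x‖ₑ := by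
      intro A hA
      rw [hm, withDensity_apply _ hA, Measure.restrict_restrict hA]
    have hmono : ∀ A, MeasurableSet A → m A ≤ m (g ⁻¹' A) := by
      intro A hA
      rw [hmA A hA, hmA _ (hgm hA)]
      refine (lintegral_mono_ae (ae_restrict_of_ae hineq)).trans ?_
      have h1 := D4_area hPQ hN hφe (hA.inter (measurableSet_ball (x := (0 : ℂ)) (ε := R')))
      rw [← hg] at h1
      refine h1.trans (lintegral_mono_set ?_)
      rintro w ⟨hw1, hw2⟩
      refine ⟨hw1, ?_⟩
      rw [mem_ball_zero_iff] at hw2 ⊢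
      by_contra hcon2
      push Not at hcon2
      have h2 := hRr w (hR'1.trans hcon2)
      have h3 : g w = P.eval w := by
        rw [hg, hQ1, rf_one]
      rw [h3] at hw2
      linarith
    have hmz : m A₀ = 0 := by
      set Gd : Set ℂ := {x | ∃ U : Set ℂ, x ∈ U ∧ IsOpen U ∧ ∀ y ∈ U, ∀ k, 0 < k → g^[k] y ∉ U}
        with hGd
      have h1 : m Gd = 0 := by
        refine measure_null_of_locally_null Gd fun x hx => ?_
        obtain ⟨U, hxU, hU, hw⟩ := hx
        exact ⟨U, mem_nhdsWithin_of_mem_nhds (hU.mem_nhds hxU),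
          D5_null hgm hmono hU.measurableSet hw⟩
      have h2 : m (A₀ \ Gd) = 0 := by
        have h3 : volume (A₀ \ Gd) = 0 := by
          refine measure_mono_null ?_ (ae_iff.1 hwand)
          rintro x ⟨hx1, hx2⟩
          simp only [Set.mem_setOf_eq, Classical.not_imp]
          exact ⟨hx1, hx2⟩
        exact ((withDensity_absolutelyContinuous _ _).trans
          Measure.restrict_le_self.absolutelyContinuous) h3
      have h4 : m A₀ ≤ m Gd + m (A₀ \ Gd) := by
        refine (measure_mono ?_).trans (measure_union_le _ _)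
        intro x hx
        by_cases h : x ∈ Gd
        · exact Or.inl h
        · exact Or.inr ⟨hx, h⟩
      rw [h1, h2, add_zero] at h4
      exact nonpos_iff_eq_zero.1 h4
    have hAo : IsOpen (A₀ ∩ ball (0 : ℂ) R') := hA₀o.inter isOpen_ball
    rw [hmA _ hA₀o.measurableSet, lintegral_eq_zero_iff hφe] at hmz
    have h1 : phi α v =ᵐ[volume.restrict (A₀ ∩ ball (0 : ℂ) R')] (fun _ => (0 : ℂ)) := by
      filter_upwards [hmz] with x hx
      simpa using hx
    exact Measure.eqOn_open_of_ae_eq h1 hAo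
      (fun x hx => (phi_continuousAt hαn fun h => hA₀K x hx.1 (hclK h)).continuousWithinAt)
      continuousOn_const ⟨hx₀, mem_ball_zero_iff.2 hR'2⟩
  have hφΩ : ∀ x, x ∉ closure (Set.range v) → phi α v x = 0 := by
    intro x hx
    by_contra hne0
    have h1 : ∀ᶠ y in 𝓝 x, phi α v y ≠ 0 := (phi_continuousAt hαn hx).eventually_ne hne0
    obtain ⟨y, hy1, hy2⟩ := (hA₀d.inter_nhds_nonempty h1)
    exact hy2 (hφA y hy1)
  have hφ0 : ∀ᵐ x : ℂ, phi α v x = 0 := by
    rw [ae_iff]
    refine measure_mono_null ?_ hvol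
    intro x hx
    by_contra h
    exact hx (hφΩ x h)
  -- the contradiction
  have hu := D6_unique hαn hker hφ0 (v 0)
  have hsj : Summable fun j => (if v j = v 0 then α j else 0) := by
    refine Summable.of_norm_bounded hαn fun j => ?_
    split_ifs
    · exact le_rfl
    · simp
  by_cases hper : ∃ p, 0 < p ∧ v p = v 0
  · set p := Nat.find hper with hp
    obtain ⟨hp0, hpv⟩ := Nat.find_spec hper
    rw [← hp] at hp0 hpv
    have hvp : ∀ j, v (j + p) = v j := by
      intro j
      simp only [hv] at hpv ⊢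
      rw [Function.iterate_add_apply, hpv]
      simp
    have hαp : ∀ j, α (j + p) = α p * α j := by
      intro j
      simp only [hα]
      have h1 := rf_iter_deriv_add (P := P) (Q := Q) (z := g c) j p (fun i _ => by
        rw [← hg]; exact hQv i)
      rw [← hg] at h1
      have h2 : g^[p] (g c) = g c := by
        have := hpv
        simp only [hv] at this
        simpa using this
      rw [h1, h2, mul_inv, mul_comm]
    have h3 : (∑ j ∈ Finset.range p, (if v j = v 0 then α j else 0)) = 1 := by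
      rw [Finset.sum_eq_single 0]
      · rw [if_pos rfl, hα0]
      · intro j hj hj0
        rw [if_neg]
        intro h4
        exact Nat.find_min hper (Finset.mem_range.1 hj) ⟨Nat.pos_of_ne_zero hj0, h4⟩
      · intro h4
        exact absurd (Finset.mem_range.2 hp0) h4
    have h5 := hsj.sum_add_tsum_nat_add p
    rw [h3, hu] at h5
    have h6 : ∑' j, (if v (j + p) = v 0 then α (j + p) else 0) =
        α p * ∑' j, (if v j = v 0 then α j else 0) := by
      rw [← tsum_mul_left]
      refine tsum_congr fun j => ?_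
      rw [hvp, hαp, mul_ite, mul_zero]
    rw [h6, hu, mul_zero, add_zero] at h5
    exact one_ne_zero h5
  · push Not at hper
    have h1 : ∑' j, (if v j = v 0 then α j else 0) = α 0 := by
      rw [tsum_eq_single 0]
      · rw [if_pos rfl]
      · intro j hj
        rw [if_neg (hper j (Nat.pos_of_ne_zero hj))]
    rw [hu, hα0] at h1
    exact zero_ne_one h1

end Pool.Agent.X325.EP
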