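import Pool.Agent.X325.EP.B
import Pool.Agent.H792R2.CE.Core
import Pool.Agent.H792R2.Dyn.Family

/-!
Polynomials: attracted points wander, the set of points which are not attracted is compact.
-/

set_option autoImplicit false

open Filter Topology Metric Set Polynomial MeasureTheory
open scoped OnePoint ENNReal

namespace Pool.Agent.X325.EP

open Pool.Agent.H792R2.CE Pool.Agent.H792R2

/-- a point attracted by a sink is attracted on the sphere -/
theorem att_of_sink {d : ℕ} {P : ℂ[X]} {x : ℂ} {n : ℕ} (hn : 0 < n) {z : ℂ}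
    (hz : (rf P 1)^[n] z = z) (hder : ‖deriv ((rf P 1)^[n]) z‖ < 1)
    (ht : Tendsto (fun k : ℕ => (rf P 1)^[n * k] x) atTop (𝓝 z)) :
    Att d P 1 (x : OnePoint ℂ) := by
  have h1 : ∀ (k : ℕ) (y : ℂ), (sph d P 1)^[k] (y : OnePoint ℂ) =
      (((rf P 1)^[k] y : ℂ) : OnePoint ℂ) := by
    intro k y
    apply D8x.sph_iter
    intro i _
    simp
  refine ⟨n, hn, z, ?_, ?_, hder, ?_⟩
  · intro i
    rw [h1]
    exact OnePoint.coe_ne_infty _
  · rw [h1, hz]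
  · have h2 : (fun k : ℕ => (sph d P 1)^[n * k] (x : OnePoint ℂ)) =
        (fun w : ℂ => (w : OnePoint ℂ)) ∘ fun k : ℕ => (rf P 1)^[n * k] x := by
      funext k
      exact h1 _ _
    rw [h2]
    exact (OnePoint.continuous_coe.tendsto z).comp ht

/-- escaping points wander -/
theorem wander_escape {g : ℂ → ℂ} (hg : Continuous g) {R : ℝ} (hR : 0 < R)
    (hesc : ∀ z, R ≤ ‖z‖ → 2 * ‖z‖ ≤ ‖g z‖) {x : ℂ}
    (hx : Tendsto (fun k : ℕ => ‖g^[k] x‖) atTop atTop) :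
    ∃ U : Set ℂ, x ∈ U ∧ IsOpen U ∧ ∀ y ∈ U, ∀ k, 0 < k → g^[k] y ∉ U := by
  obtain ⟨N, hN⟩ := (hx.eventually (eventually_gt_atTop R)).exists
  set x' := g^[N] x with hx'
  set W : Set ℂ := {y | R < ‖y‖} ∩ ball x' (‖x'‖ / 4) with hW
  have hx'0 : 0 < ‖x'‖ := hR.trans hN
  have hWo : IsOpen W := (isOpen_lt continuous_const continuous_norm).inter isOpen_ball
  have hWx : x' ∈ W := ⟨hN, mem_ball_self (by linarith)⟩
  have hgrow : ∀ y ∈ W, ∀ k, 0 < k → 2 * ‖y‖ ≤ ‖g^[k] y‖ := by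
    intro y hy k hk
    induction k with
    | zero => omega
    | succ k ih =>
      rw [Function.iterate_succ_apply']
      rcases Nat.eq_zero_or_pos k with h0 | h0
      · subst h0
        exact hesc y (le_of_lt hy.1)
      · have h1 := ih h0
        have h2 : R < ‖y‖ := hy.1
        have h3 := hesc (g^[k] y) (by linarith)
        linarith
  refine ⟨g^[N] ⁻¹' W, hWx, hWo.preimage (hg.iterate N), ?_⟩
  intro y hy k hk hky
  have h1 : g^[k] (g^[N] y) ∈ W := by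
    rw [← Function.iterate_add_apply, add_comm, Function.iterate_add_apply]
    exact hky
  have h2 := hgrow _ hy k hk
  have h3 : ‖x'‖ - ‖x'‖ / 4 ≤ ‖g^[N] y‖ := by
    have h4 : ‖g^[N] y - x'‖ < ‖x'‖ / 4 := by
      have := hy.2
      rwa [mem_ball, dist_eq_norm] at this
    have h5 := norm_sub_norm_le x' (g^[N] y)
    rw [norm_sub_rev] at h5
    linarith
  have h6 : ‖g^[k] (g^[N] y)‖ ≤ ‖x'‖ + ‖x'‖ / 4 := by
    have h4 : ‖g^[k] (g^[N] y) - x'‖ < ‖x'‖ / 4 := by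
      have := h1.2
      rwa [mem_ball, dist_eq_norm] at this
    have h5 := norm_sub_norm_le (g^[k] (g^[N] y)) x'
    linarith
  linarith

/-- almost every attracted point has a wandering neighbourhood -/
theorem wandering {P : ℂ[X]} {R : ℝ} (hR : 0 < R)
    (hesc : ∀ z : ℂ, R ≤ ‖z‖ → 2 * ‖z‖ ≤ ‖P.eval z‖) :
    ∀ᵐ x : ℂ, x ∈ {z : ℂ | Dyn.Attr (rf P 1) z} →
      ∃ U : Set ℂ, x ∈ U ∧ IsOpen U ∧ ∀ y ∈ U, ∀ k, 0 < k → (rf P 1)^[k] y ∉ U := by
  have h2 : ∀ᵐ x : ℂ, x ∉ {x : ℂ | ∃ z ∈ D8x.T P 1, ∃ i, x = (rf P 1)^[i] z} :=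
    (D8x.orbit_countable P 1).ae_notMem volume
  filter_upwards [h2] with x hx2 hx3
  rcases hx3 with h | ⟨n, hn, z, hz, hder, ht⟩
  · refine wander_escape ?_ hR ?_ h
    · rw [rf_one]
      exact P.continuous
    · rw [rf_one]
      exact hesc
  · exact D8x.good (d := 0) (fun k => by simp) (att_of_sink hn hz hder ht) hx2

/-- the properties of the notion of good point (escaping or attracted; or only escaping) used in
the proof -/
structure Pred (A : (ℂ → ℂ) → ℂ → Prop) : Prop where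
  step : ∀ {g : ℂ → ℂ}, Differentiable ℂ g → ∀ {c : ℂ}, A g (g c) → A g c
  stable : ∀ {f : ℂ → ℂ → ℂ}, ContDiff ℂ 1 (fun p : ℂ × ℂ => f p.1 p.2) → ∀ {R ρ : ℝ}, 0 < R →
    0 < ρ → (∀ a, ‖a‖ < ρ → ∀ z, R ≤ ‖z‖ → 2 * ‖z‖ ≤ ‖f a z‖) → ∀ {z₀ : ℂ}, A (f 0) z₀ →
      ∀ᶠ p : ℂ × ℂ in 𝓝 (0, z₀), A (f p.1) p.2
  large : ∀ {g : ℂ → ℂ} {z : ℂ}, Tendsto (fun k : ℕ => ‖g^[k] z‖) atTop atTop → A g z
  attr : ∀ {g : ℂ → ℂ} {z : ℂ}, A g z → Dyn.Attr g z

theorem pred_attr : Pred Dyn.Attr where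
  step := fun hg _ h => Dyn.attr_of_step hg h
  stable := fun hf _ _ hR hρ hesc _ h => Dyn.attr_stable hf hR hρ hesc h
  large := fun h => Or.inl h
  attr := fun h => h

theorem pred_escape : Pred (fun (g : ℂ → ℂ) (z : ℂ) =>
    Tendsto (fun k : ℕ => ‖g^[k] z‖) atTop atTop) where
  step := by
    intro g _ c h
    rw [← tendsto_add_atTop_iff_nat 1]
    exact h
  stable := by
    intro f hf R ρ hR hρ hesc z₀ h
    obtain ⟨N, hN⟩ := (h.eventually (eventually_gt_atTop R)).exists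
    have hc : Continuous (fun p : ℂ × ℂ => ‖(f p.1)^[N] p.2‖) :=
      (Dyn.contDiff_iter hf N).continuous.norm
    have h1 : ∀ᶠ p : ℂ × ℂ in 𝓝 ((0 : ℂ), z₀), R < ‖(f p.1)^[N] p.2‖ :=
      (hc.tendsto ((0 : ℂ), z₀)).eventually (Ioi_mem_nhds hN)
    have h2 : ∀ᶠ p : ℂ × ℂ in 𝓝 ((0 : ℂ), z₀), ‖p.1‖ < ρ := by
      have hc : Continuous (fun p : ℂ × ℂ => ‖p.1‖) := by fun_prop
      have h0 : ‖(((0 : ℂ), z₀) : ℂ × ℂ).1‖ < ρ := by simpa using hρ
      exact (hc.tendsto ((0 : ℂ), z₀)).eventually (Iio_mem_nhds h0)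
    filter_upwards [h1, h2] with p hp1 hp2
    have h3 := Dyn.attr_of_large hR (hesc p.1 hp2) hp1.le
    rw [← tendsto_add_atTop_iff_nat N]
    refine h3.congr fun k => ?_
    rw [← Function.iterate_add_apply]
  large := fun h => h
  attr := fun h => Or.inl h

/-- the set of good points is open -/
theorem attr_open {A : (ℂ → ℂ) → ℂ → Prop} (hA : Pred A) {P : ℂ[X]} {R : ℝ} (hR : 0 < R)
    (hesc : ∀ z : ℂ, R ≤ ‖z‖ → 2 * ‖z‖ ≤ ‖P.eval z‖) :
    IsOpen {z : ℂ | A (rf P 1) z} := by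
  rw [isOpen_iff_mem_nhds]
  intro x hx
  have hf : ContDiff ℂ 1 (fun p : ℂ × ℂ => (fun _ : ℂ => rf P 1) p.1 p.2) := by
    have h1 : ContDiff ℂ 1 (fun z : ℂ => P.eval z) := P.differentiable.contDiff
    have h2 : ContDiff ℂ 1 (fun p : ℂ × ℂ => P.eval p.2) := h1.comp contDiff_snd
    simpa [rf_one] using h2
  have h1 := hA.stable (f := fun _ : ℂ => rf P 1) hf hR one_pos
    (fun _ _ z hz => by rw [rf_one]; exact hesc z hz) hx
  have h2 : Tendsto (fun y : ℂ => (((0 : ℂ), y) : ℂ × ℂ)) (𝓝 x) (𝓝 ((0 : ℂ), x)) :=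
    (Continuous.prodMk_right (0 : ℂ)).tendsto x
  exact h2.eventually h1

/-- points that are not good stay so -/
theorem natt_iter_poly {A : (ℂ → ℂ) → ℂ → Prop} (hA : Pred A) {P : ℂ[X]} {z : ℂ}
    (hz : ¬ A (rf P 1) z) (n : ℕ) : ¬ A (rf P 1) ((rf P 1)^[n] z) := by
  have hdiff : Differentiable ℂ (rf P 1) := by
    rw [rf_one]
    exact P.differentiable
  induction n with
  | zero => exact hz
  | succ n ih =>
    rw [Function.iterate_succ_apply']
    exact fun h => ih (hA.step hdiff h)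

/-- the set of points which are not good is compact -/
theorem natt_compact_poly {A : (ℂ → ℂ) → ℂ → Prop} (hA : Pred A) {P : ℂ[X]} {R : ℝ}
    (hR : 0 < R) (hesc : ∀ z : ℂ, R ≤ ‖z‖ → 2 * ‖z‖ ≤ ‖P.eval z‖) :
    IsCompact {z : ℂ | ¬ A (rf P 1) z} := by
  refine Metric.isCompact_of_isClosed_isBounded ?_ ?_
  · have h1 : {z : ℂ | ¬ A (rf P 1) z} = {z : ℂ | A (rf P 1) z}ᶜ := rfl
    rw [h1]
    exact (attr_open hA hR hesc).isClosed_compl
  · refine (isBounded_closedBall (x := (0 : ℂ)) (r := R)).subset ?_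
    intro z hz
    rw [mem_closedBall_zero_iff]
    by_contra h
    push Not at h
    apply hz
    refine hA.large (Dyn.attr_of_large (R := R) hR ?_ h.le)
    rw [rf_one]
    exact hesc

end Pool.Agent.X325.EP
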