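import Pool.Agent.X325.EP.C
import Pool.Agent.H792R2.CE.Main

/-!
Polynomials: in a direction satisfying the transversality conditions there are arbitrarily small
nonzero parameters for which every critical point is attracted.
-/

set_option autoImplicit false

open Filter Topology Metric Set Polynomial MeasureTheory
open scoped OnePoint ENNReal

namespace Pool.Agent.X325.EP

open Pool.Agent.H792R2.CE Pool.Agent.H792R2
open Pool.Agent.H792R2.Rt (principle_loc)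

theorem core_dir {A : (ℂ → ℂ) → ℂ → Prop} (hA : Pred A) {P Q H G : ℂ[X]} {d : ℕ} (hd : 2 ≤ d) (hQ1 : Q = 1) (hG0 : G = 0)
    (hPd : P.natDegree = d) (hHd : H.natDegree < d)
    (hdense : Dense {z : ℂ | A (rf P Q) z}) {μ : ℝ} (hμ : 1 < μ)
    (hexp : ∃ᶠ n : ℕ in atTop, ∀ c : ℂ, (wr P Q).eval c = 0 → A (rf P Q) c ∨
      ∃ m ≤ n, μ ^ n ≤ ‖deriv ((rf P Q)^[m]) (rf P Q c)‖)
    (hN₁ : ∀ c : ℂ, (wr P Q).eval c = 0 → ¬ A (rf P Q) c →
      (wr H Q + wr P G).eval c ≠ 0)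
    (hTr : ∀ c : ℂ, (wr P Q).eval c = 0 → ¬ A (rf P Q) c →
      (wr P Q).rootMultiplicity c = 1 →
        (Summable fun j => (H * Q - P * G).eval ((rf P Q)^[j] c) /
          Q.eval ((rf P Q)^[j] c) ^ 2 / deriv ((rf P Q)^[j]) (rf P Q c)) ∧
        ∑' j, (H * Q - P * G).eval ((rf P Q)^[j] c) / Q.eval ((rf P Q)^[j] c) ^ 2 /
          deriv ((rf P Q)^[j]) (rf P Q c) ≠ 0) :
    ∀ ε : ℝ, 0 < ε → ∃ s : ℂ, s ≠ 0 ∧ ‖s‖ < ε ∧
      ∀ c : ℂ, (wr (P + C s * H) (Q + C s * G)).eval c = 0 →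
        A (rf (P + C s * H) (Q + C s * G)) c := by
  classical
  intro ε hε
  have hQG : ∀ (s z : ℂ), (Q + C s * G).eval z = 1 := by
    intro s z
    rw [hQ1, hG0]
    simp
  have hQe : ∀ z : ℂ, Q.eval z = 1 := by
    intro z
    rw [hQ1]
    simp
  have hrf : ∀ s z : ℂ, rf (P + C s * H) (Q + C s * G) z = (P + C s * H).eval z := by
    intro s z
    rw [rf, hQG, div_one]
  have hP0 : P ≠ 0 := by
    rintro rfl
    rw [natDegree_zero] at hPd
    omega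
  have hN : wr P Q ≠ 0 := by
    rw [hQ1, wr_one]
    intro h
    have := Polynomial.derivative_eq_zero.1 h
    omega
  -- uniform escape
  obtain ⟨R, ρe, hR1, hρe, hesc⟩ := Dyn.family_escape (d := d) hd
    (p := fun s => P + C s * H) ((Dyn.PF.const P).add (Dyn.PF.C.mul (Dyn.PF.const H)))
    (by
      intro s
      refine (natDegree_add_le _ _).trans (max_le hPd.le ?_)
      exact (natDegree_C_mul_le _ _).trans hHd.le)
    (by
      simp only [C_0, zero_mul, add_zero]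
      rw [← hPd]
      exact leadingCoeff_ne_zero.2 hP0)
  have hR0 : 0 < R := by linarith
  have hescP : ∀ z : ℂ, R ≤ ‖z‖ → 2 * ‖z‖ ≤ ‖P.eval z‖ := by
    intro z hz
    have := (hesc 0 (by simpa using hρe)).2 z hz
    simpa using this
  obtain ⟨Ks, hKs⟩ : ∃ Ks : Set ℂ, Ks = {z : ℂ | ¬ A (rf P Q) z} := ⟨_, rfl⟩
  have hKc : IsCompact Ks := by rw [hKs, hQ1]; exact natt_compact_poly hA hR0 hescP
  have hmemK : ∀ z : ℂ, z ∈ Ks ↔ ¬ A (rf P Q) z := fun z => by rw [hKs]; rfl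
  have hstay : ∀ z ∈ Ks, ∀ n, (rf P Q)^[n] z ∈ Ks ∧ Q.eval ((rf P Q)^[n] z) ≠ 0 := by
    intro z hz n
    refine ⟨?_, by rw [hQe]; exact one_ne_zero⟩
    rw [hmemK] at hz ⊢
    rw [hQ1] at hz ⊢
    exact natt_iter_poly hA hz n
  have hKQ : ∀ z ∈ Ks, Q.eval z ≠ 0 := fun z _ => by rw [hQe]; exact one_ne_zero
  obtain ⟨bad, hbad⟩ : ∃ bad : Finset ℂ, ∀ c, c ∈ bad ↔ (wr P Q).eval c = 0 ∧ c ∈ Ks := by
    refine ⟨(wr P Q).roots.toFinset.filter (fun c => c ∈ Ks), fun c => ?_⟩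
    rw [Finset.mem_filter, Multiset.mem_toFinset, Polynomial.mem_roots hN]
    rfl
  obtain ⟨k, hk⟩ : ∃ k : ℂ → ℕ, k = fun c => (wr P Q).rootMultiplicity c := ⟨_, rfl⟩
  have hk' : ∀ c, (wr P Q).rootMultiplicity c = k c := fun c => by rw [hk]
  have hk1 : ∀ c ∈ bad, 1 ≤ k c := by
    intro c hc
    rw [← hk', Nat.one_le_iff_ne_zero]
    intro h0
    have h1 := (Polynomial.rootMultiplicity_pos hN).2 ((hbad c).1 hc).1
    omega
  have hexpb : ∃ᶠ n : ℕ in atTop, ∀ c ∈ bad,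
      ∃ m ≤ n, μ ^ n ≤ ‖deriv ((rf P Q)^[m]) (rf P Q c)‖ := by
    refine hexp.mono fun n hn c hc => ?_
    rcases hn c ((hbad c).1 hc).1 with h | h
    · exact absurd h ((hmemK c).1 ((hbad c).1 hc).2)
    · exact h
  have hne : ∀ c ∈ bad, ∀ j, deriv ((rf P Q)^[j]) (rf P Q c) ≠ 0 := by
    intro c hc j
    refine deriv_ne_of_expanding (fun j => ?_) hμ (hexpb.mono fun n hn => hn c hc) j
    rw [hQe]
    exact one_ne_zero
  have hN₁' : ∀ c ∈ bad, (wr H Q + wr P G).eval c ≠ 0 := fun c hc =>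
    hN₁ c ((hbad c).1 hc).1 ((hmemK c).1 ((hbad c).1 hc).2)
  have hTr' : ∀ c ∈ bad, (wr P Q).rootMultiplicity c = 1 →
        (Summable fun j => (H * Q - P * G).eval ((rf P Q)^[j] c) /
          Q.eval ((rf P Q)^[j] c) ^ 2 / deriv ((rf P Q)^[j]) (rf P Q c)) ∧
        ∑' j, (H * Q - P * G).eval ((rf P Q)^[j] c) / Q.eval ((rf P Q)^[j] c) ^ 2 /
          deriv ((rf P Q)^[j]) (rf P Q c) ≠ 0 := fun c hc =>
    hTr c ((hbad c).1 hc).1 ((hmemK c).1 ((hbad c).1 hc).2)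
  have hBr := fun c : {c // c ∈ bad} => A1_branch (H := H) (G := G) (k := k c) (hk1 c c.2)
    (hk' c) hN (hN₁' c c.2)
  choose τ t ρτ hρτ ht hτ0 hτd hτD hτcrit hτuniq using hBr
  set K : ℕ := ∏ c ∈ bad, k c with hKdef
  have hK : 1 ≤ K := Nat.one_le_iff_ne_zero.2
    (Finset.prod_ne_zero_iff.2 fun c hc => by have := hk1 c hc; omega)
  have hK0 : K ≠ 0 := by omega
  set l : ℂ → ℕ := fun c => K / k c with hl
  have hlk : ∀ c ∈ bad, l c * k c = K := fun c hc =>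
    Nat.div_mul_cancel (Finset.dvd_prod_of_mem k hc)
  have hl1 : ∀ c ∈ bad, 1 ≤ l c := by
    intro c hc
    by_contra h
    have h0 : l c = 0 := by omega
    have := hlk c hc
    rw [h0, zero_mul] at this
    omega
  have hpow : Tendsto (fun a : ℂ => a ^ K) (𝓝 0) (𝓝 0) := by
    have h1 : Tendsto (fun a : ℂ => a ^ K) (𝓝 0) (𝓝 (0 ^ K)) :=
      Continuous.tendsto (by fun_prop) 0
    rwa [zero_pow hK0] at h1
  obtain ⟨ρ₁, hρ₁, hρ₁1, hρ₁τ, hρ₁e⟩ : ∃ ρ₁ : ℝ, 0 < ρ₁ ∧ ρ₁ ≤ 1 ∧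
      (∀ c, ρ₁ ≤ ρτ c) ∧ ρ₁ ≤ ρe := by
    have h1 : ∀ x : ℝ, 0 < x → ∀ᶠ y : ℝ in 𝓝[>] 0, y ≤ x := by
      intro x hx
      have h2 : ∀ᶠ y : ℝ in 𝓝 0, y < x := Iio_mem_nhds hx
      filter_upwards [h2.filter_mono nhdsWithin_le_nhds] with y hy using hy.le
    have h3 : ∀ᶠ y : ℝ in 𝓝[>] 0, ∀ c, y ≤ ρτ c := by
      rw [Filter.eventually_all]
      exact fun c => h1 _ (hρτ c)
    obtain ⟨y, h4, h5, h6, h7⟩ := ((h1 1 one_pos).and (h3.and ((h1 ρe hρe).and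
      self_mem_nhdsWithin))).exists
    exact ⟨y, h7, h4, h5, h6⟩
  have hpowlt : ∀ a : ℂ, ‖a‖ < ρ₁ → ‖a ^ K‖ < ρe := by
    intro a ha
    rw [norm_pow]
    have h1 : ‖a‖ ^ K ≤ ‖a‖ ^ 1 := pow_le_pow_of_le_one (norm_nonneg _) (ha.le.trans hρ₁1) hK
    rw [pow_one] at h1
    linarith
  -- the family
  have hfamv : ∀ a z : ℂ, fam P Q H G K a z = (P + C (a ^ K) * H).eval z := fun a z => hrf _ z
  have hfamesc : ∀ a : ℂ, ‖a‖ < ρ₁ → ∀ z : ℂ, R ≤ ‖z‖ → 2 * ‖z‖ ≤ ‖fam P Q H G K a z‖ := by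
    intro a ha z hz
    rw [hfamv]
    exact (hesc _ (hpowlt a ha)).2 z hz
  have hfamdiff : ∀ a : ℂ, Differentiable ℂ (fam P Q H G K a) := by
    intro a
    have h1 : fam P Q H G K a = fun z => (P + C (a ^ K) * H).eval z := by
      funext z
      exact hfamv a z
    rw [h1]
    exact (P + C (a ^ K) * H).differentiable
  have hfamC : ContDiff ℂ 1 (fun p : ℂ × ℂ => fam P Q H G K p.1 p.2) := by
    rw [contDiff_iff_contDiffAt]
    intro p
    refine fam_contDiffAt p ?_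
    change (Q + C (p.1 ^ K) * G).eval p.2 ≠ 0
    rw [hQG]
    exact one_ne_zero
  have hf0 : fam P Q H G K 0 = rf P Q := fam_zero hK
  obtain ⟨M, hM0, hM⟩ : ∃ M : ℝ, 0 ≤ M ∧ ∀ z ∈ cthickening 1 Ks, ‖z‖ ≤ M := by
    obtain ⟨M, hM⟩ := hKc.cthickening.isBounded.exists_norm_le
    exact ⟨max M 0, le_max_right _ _, fun z hz => (hM z hz).trans (le_max_left _ _)⟩
  have hKW : ∀ (a z : ℂ), ‖a‖ < ρ₁ → z ∈ cthickening 1 Ks → (Q + C (a ^ K) * G).eval z ≠ 0 :=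
    fun a z _ _ => by rw [hQG]; exact one_ne_zero
  -- the marked points
  let ι := Σ c : {c // c ∈ bad}, {ω // ω ∈ Polynomial.nthRootsFinset (k c) (1 : ℂ)}
  let ζ : ι → ℂ → ℂ := fun i a => τ i.1 ((i.2 : ℂ) * a ^ (l i.1))
  have hω : ∀ i : ι, (i.2 : ℂ) ^ (k i.1) = 1 := fun i =>
    (Polynomial.mem_nthRootsFinset (by have := hk1 i.1 i.1.2; omega) _).1 i.2.2
  have hωn : ∀ i : ι, ‖(i.2 : ℂ)‖ = 1 := by
    intro i
    have h1 : ‖(i.2 : ℂ)‖ ^ (k i.1) = 1 := by rw [← norm_pow, hω i, norm_one]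
    have h2 := hk1 i.1 i.1.2
    exact (pow_eq_one_iff_of_nonneg (norm_nonneg _) (by omega)).1 h1
  have hsmall : ∀ (i : ι) (a : ℂ), ‖a‖ < ρ₁ → ‖(i.2 : ℂ) * a ^ (l i.1)‖ < ρ₁ := by
    intro i a ha
    rw [norm_mul, hωn i, one_mul, norm_pow]
    have h1 : ‖a‖ ^ (l i.1) ≤ ‖a‖ ^ 1 :=
      pow_le_pow_of_le_one (norm_nonneg _) (ha.le.trans hρ₁1) (hl1 i.1 i.1.2)
    rw [pow_one] at h1
    exact lt_of_le_of_lt h1 ha
  have hζd : ∀ i, ∀ a, ‖a‖ < ρ₁ → DifferentiableAt ℂ (ζ i) a := by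
    intro i a ha
    have h3 : DifferentiableAt ℂ (fun a : ℂ => (i.2 : ℂ) * a ^ (l i.1)) a := by fun_prop
    exact DifferentiableAt.comp (g := τ i.1) (f := fun a : ℂ => (i.2 : ℂ) * a ^ (l i.1)) a
      (hτD i.1 _ (lt_of_lt_of_le (hsmall i a ha) (hρ₁τ i.1))) h3
  have hζ0 : ∀ i : ι, ζ i 0 = (i.1 : ℂ) := by
    intro i
    have := hl1 i.1 i.1.2
    simp only [ζ, zero_pow (show l i.1 ≠ 0 by omega), mul_zero, hτ0]
  have hb : ∀ i n, (fam P Q H G K 0)^[n] (ζ i 0) ∈ Ks := by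
    intro i n
    rw [hf0, hζ0]
    exact (hstay _ ((hbad _).1 i.1.2).2 n).1
  -- growth for every marked point
  have hgi : ∀ i : ι, ∃ (Di : ℕ) (Ci : ℝ), 0 ≤ Ci ∧ ∀ᶠ n : ℕ in atTop,
      (∀ c ∈ bad, ∃ m ≤ n, μ ^ n ≤ ‖deriv ((rf P Q)^[m]) (rf P Q c)‖) → ∀ r, 0 < r → r < ρ₁ →
      (∀ m ≤ n + 1, ∀ a, ‖a‖ ≤ r → (fam P Q H G K a)^[m] (ζ i a) ∈ cthickening 1 Ks) →
        μ ^ (n + 1) * r ^ Di ≤ Ci := by
    intro i
    have hcb := (hbad _).1 i.1.2
    by_cases hki : k i.1 = 1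
    · -- simple
      have h1 := hTr' i.1 i.1.2 (by rw [hk', hki])
      obtain ⟨C₀, n₀, hC₀, hgr⟩ := simple_growth (P := P) (Q := Q) (H := H) (G := G) hK
        (hτ0 i.1) (hτd i.1) (hτD i.1) hcb.1 (fun j => (hstay _ hcb.2 j).2) (hne _ i.1.2)
        h1.1 h1.2 hM0 hM hρ₁1 (hρ₁τ i.1) hKW
      refine ⟨K, μ * C₀, mul_nonneg (by linarith) hC₀, ?_⟩
      filter_upwards [late_of_expanding
        (g := fun m => ‖deriv ((rf P Q)^[m]) (rf P Q i.1)‖) hμ n₀] with n hn hall r hr hrρ hbd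
      obtain ⟨m, hmn, hm⟩ := hall _ i.1.2
      have hmn₀ := hn m hm
      have hω1 : (i.2 : ℂ) = 1 := by
        have e1 : ∀ (x : ℂ) (n : ℕ), x ^ n = 1 → n = 1 → x = 1 := by
          intro x n hx hn
          rwa [hn, pow_one] at hx
        exact e1 _ _ (hω i) hki
      have hlK : l i.1 = K := by
        have := hlk _ i.1.2
        rwa [hki, mul_one] at this
      have h2 := hgr m r hmn₀ hr hrρ (fun j hj a ha => by
        have h3 := hbd j (by omega) a ha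
        simp only [ζ, hω1, hlK, one_mul] at h3
        exact h3)
      calc μ ^ (n + 1) * r ^ K = μ * (μ ^ n * r ^ K) := by rw [pow_succ]; ring
        _ ≤ μ * (‖deriv ((rf P Q)^[m]) (rf P Q i.1)‖ * r ^ K) := by
            apply mul_le_mul_of_nonneg_left _ (by linarith)
            exact mul_le_mul_of_nonneg_right hm (by positivity)
        _ ≤ μ * C₀ := mul_le_mul_of_nonneg_left h2 (by linarith)
    · -- multiple
      have hk2 : 2 ≤ k i.1 := by
        have := hk1 _ i.1.2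
        omega
      obtain ⟨C₀, hC₀, hgr⟩ := multi_growth (P := P) (Q := Q) (H := H) (G := G) hk2
        (hl1 _ i.1.2) (hlk _ i.1.2) (hρτ i.1) (ht i.1) (hτ0 i.1) (hτd i.1) (hτD i.1)
        (hτcrit i.1) (hKQ _ hcb.2) (hN₁' _ i.1.2) hM0 hM hρ₁1 (hρ₁τ i.1) hKW
        (fun a b _ _ => by rw [hQG]; exact one_ne_zero)
      refine ⟨l i.1 * (k i.1 + 1), μ * C₀, mul_nonneg (by linarith) hC₀, ?_⟩
      refine Eventually.of_forall fun n hall r hr hrρ hbd => ?_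
      obtain ⟨m, hmn, hm⟩ := hall _ i.1.2
      have h2 := hgr m r i.2 hr hrρ (hω i) (fun j hj a ha => hbd j (by omega) a ha)
      calc μ ^ (n + 1) * r ^ (l i.1 * (k i.1 + 1))
          = μ * (μ ^ n * r ^ (l i.1 * (k i.1 + 1))) := by rw [pow_succ]; ring
        _ ≤ μ * (‖deriv ((rf P Q)^[m]) (rf P Q i.1)‖ * r ^ (l i.1 * (k i.1 + 1))) := by
            apply mul_le_mul_of_nonneg_left _ (by linarith)
            exact mul_le_mul_of_nonneg_right hm (by positivity)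
        _ ≤ μ * C₀ := mul_le_mul_of_nonneg_left h2 (by linarith)
  choose Di Ci hCi hgi' using hgi
  have hgrow : ∃ᶠ n : ℕ in atTop, ∀ i, ∀ r, 0 < r → r < ρ₁ →
      (∀ m ≤ n, ∀ a, ‖a‖ ≤ r → (fam P Q H G K a)^[m] (ζ i a) ∈ cthickening 1 Ks) →
      μ ^ n * r ^ (∑ i, Di i) ≤ ∑ i, Ci i := by
    have h1 := hexpb.and_eventually (Filter.eventually_all.2 hgi')
    rw [Filter.frequently_atTop] at h1 ⊢
    intro N
    obtain ⟨n, hn, hgood, hall⟩ := h1 N
    refine ⟨n + 1, by omega, ?_⟩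
    intro i r hr hr1 hbd
    have h2 := hall i hgood r hr hr1 hbd
    have h3 : Di i ≤ ∑ i, Di i := Finset.single_le_sum (f := Di) (fun _ _ => Nat.zero_le _)
      (Finset.mem_univ i)
    have h4 : Ci i ≤ ∑ i, Ci i := Finset.single_le_sum (f := Ci) (fun i _ => hCi i)
      (Finset.mem_univ i)
    calc μ ^ (n + 1) * r ^ (∑ i, Di i) ≤ μ ^ (n + 1) * r ^ (Di i) :=
          mul_le_mul_of_nonneg_left (pow_le_pow_of_le_one hr.le (hr1.le.trans hρ₁1) h3)
            (pow_nonneg (by linarith) _)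
      _ ≤ Ci i := h2
      _ ≤ _ := h4
  -- stability
  have hstab : ∀ z, A (fam P Q H G K 0) z →
      ∀ᶠ p : ℂ × ℂ in 𝓝 (0, z), A (fam P Q H G K p.1) p.2 := fun z hz =>
    hA.stable hfamC hR0 hρ₁ hfamesc hz
  -- the escape principle
  have hprin := principle_loc (f := fam P Q H G K)
    (W := {p : ℂ × ℂ | ‖p.1‖ < ρ₁ ∧ (Q + C (p.1 ^ K) * G).eval p.2 ≠ 0})
    (fun p hp => fam_contDiffAt p hp.2) hKc hρ₁ one_pos
    (fun a z ha hz => ⟨ha, hKW a z ha hz⟩)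
    (fun a z => A (fam P Q H G K a) z)
    (by
      rintro a z ⟨ha, hz⟩ h
      exact hA.step (hfamdiff a) h)
    hstab
    (by
      rw [hf0]
      exact hdense)
    ζ hζd hb hμ _ _ hgrow
  -- every point is fine for small parameters
  have hall : ∀ᶠ a : ℂ in 𝓝 0, ∀ x ∈ closedBall (0 : ℂ) R,
      A (fam P Q H G K a) x ∨
      (wr (P + C (a ^ K) * H) (Q + C (a ^ K) * G)).eval x ≠ 0 ∨
      ∃ i : ι, x = ζ i a := by
    refine (isCompact_closedBall (0 : ℂ) R).eventually_forall_of_forall_eventually fun z _ => ?_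
    by_cases hx : A (rf P Q) z
    · filter_upwards [hstab z (by rw [hf0]; exact hx)] with p hp
      exact Or.inl hp
    · have hzK : z ∈ Ks := (hmemK z).2 hx
      by_cases hNz : (wr P Q).eval z = 0
      · have hzb : z ∈ bad := (hbad z).2 ⟨hNz, hzK⟩
        have hnear : ∀ᶠ p : ℂ × ℂ in 𝓝 (0, z), ‖p.2 - z‖ < ρτ ⟨z, hzb⟩ ∧
            ‖p.1 ^ (l z)‖ < ρτ ⟨z, hzb⟩ := by
          refine Eventually.and ?_ ?_
          · have h1 : Continuous (fun p : ℂ × ℂ => ‖p.2 - z‖) := by fun_prop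
            have h2 : ‖(((0 : ℂ), z) : ℂ × ℂ).2 - z‖ < ρτ ⟨z, hzb⟩ := by
              simpa using hρτ ⟨z, hzb⟩
            exact (h1.tendsto ((0 : ℂ), z)).eventually (Iio_mem_nhds h2)
          · have h1 : Continuous (fun p : ℂ × ℂ => ‖p.1 ^ (l z)‖) := by fun_prop
            have h2 : ‖(((0 : ℂ), z) : ℂ × ℂ).1 ^ (l z)‖ < ρτ ⟨z, hzb⟩ := by
              have := hl1 z hzb
              simpa [zero_pow (show l z ≠ 0 by omega)] using hρτ ⟨z, hzb⟩
            exact (h1.tendsto ((0 : ℂ), z)).eventually (Iio_mem_nhds h2)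
        filter_upwards [hnear] with p hp2
        by_cases hw : (wr (P + C (p.1 ^ K) * H) (Q + C (p.1 ^ K) * G)).eval p.2 = 0
        · right; right
          have e1 : (p.1 ^ (l z)) ^ (k z) = p.1 ^ K := by rw [← pow_mul, hlk z hzb]
          obtain ⟨ω, hω1, hω2⟩ := hτuniq ⟨z, hzb⟩ p.2 (p.1 ^ (l z)) hp2.1 hp2.2 (by
            change (wr (P + C ((p.1 ^ (l z)) ^ (k z)) * H)
              (Q + C ((p.1 ^ (l z)) ^ (k z)) * G)).eval p.2 = 0
            rw [e1]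
            exact hw)
          have hkz : 0 < k z := by have := hk1 z hzb; omega
          refine ⟨⟨⟨z, hzb⟩, ⟨ω, (Polynomial.mem_nthRootsFinset hkz _).2 hω1⟩⟩, ?_⟩
          change p.2 = τ ⟨z, hzb⟩ (ω * p.1 ^ (l z))
          rw [← hω2]
        · exact Or.inr (Or.inl hw)
      · have hNe : ∀ᶠ p : ℂ × ℂ in 𝓝 (0, z),
            (wr (P + C (p.1 ^ K) * H) (Q + C (p.1 ^ K) * G)).eval p.2 ≠ 0 := by
          have h1 : Continuous (fun p : ℂ × ℂ =>
              (wr (P + C (p.1 ^ K) * H) (Q + C (p.1 ^ K) * G)).eval p.2) := by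
            simp only [wr_family, Polynomial.eval_add, Polynomial.eval_mul, Polynomial.eval_C]
            have c1 : Continuous (fun p : ℂ × ℂ => (wr P Q).eval p.2) :=
              (wr P Q).continuous.comp continuous_snd
            have c2 : Continuous (fun p : ℂ × ℂ => (wr H Q).eval p.2) :=
              (wr H Q).continuous.comp continuous_snd
            have c3 : Continuous (fun p : ℂ × ℂ => (wr P G).eval p.2) :=
              (wr P G).continuous.comp continuous_snd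
            have c4 : Continuous (fun p : ℂ × ℂ => (wr H G).eval p.2) :=
              (wr H G).continuous.comp continuous_snd
            fun_prop
          refine h1.continuousAt.eventually_ne ?_
          change (wr (P + C ((0 : ℂ) ^ K) * H) (Q + C ((0 : ℂ) ^ K) * G)).eval z ≠ 0
          rw [zero_pow hK0]
          simpa using hNz
        filter_upwards [hNe] with p hp2
        exact Or.inr (Or.inl hp2)
  have hsm : ∀ᶠ a : ℂ in 𝓝 0, ‖a ^ K‖ < ε := by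
    have h2 : Continuous (fun a : ℂ => ‖a ^ K‖) := by fun_prop
    have h3 : ‖(0 : ℂ) ^ K‖ < ε := by
      rw [zero_pow hK0, norm_zero]
      exact hε
    exact (h2.tendsto 0).eventually (Iio_mem_nhds h3)
  obtain ⟨δ, hδ, hδs⟩ := Metric.mem_nhds_iff.1 (hall.and hsm)
  obtain ⟨a, ha, haρ, ha0, hattr⟩ : ∃ a : ℂ, ‖a‖ < δ ∧ ‖a‖ < ρ₁ ∧ a ≠ 0 ∧
      ∀ i, A (fam P Q H G K a) (ζ i a) := by
    by_cases hne' : Nonempty ι
    · obtain ⟨i₀⟩ := hne'
      obtain ⟨a, ha, haρ, hattr⟩ := hprin δ hδ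
      refine ⟨a, ha, haρ, ?_, hattr⟩
      rintro rfl
      have h1 := hattr i₀
      rw [hf0, hζ0] at h1
      exact (hmemK _).1 ((hbad _).1 i₀.1.2).2 h1
    · refine ⟨((min δ ρ₁ / 2 : ℝ) : ℂ), ?_, ?_, ?_, fun i => absurd ⟨i⟩ hne'⟩
      · rw [Complex.norm_real, Real.norm_eq_abs, abs_of_pos (by positivity)]
        have := min_le_left δ ρ₁
        linarith
      · rw [Complex.norm_real, Real.norm_eq_abs, abs_of_pos (by positivity)]
        have := min_le_right δ ρ₁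
        linarith
      · have h1 : (0 : ℝ) < min δ ρ₁ / 2 := by positivity
        exact_mod_cast h1.ne'
  obtain ⟨ha1, ha2⟩ := hδs (mem_ball_zero_iff.2 ha)
  refine ⟨a ^ K, pow_ne_zero _ ha0, ha2, ?_⟩
  intro c hc
  by_cases hcR : ‖c‖ ≤ R
  · rcases ha1 c (mem_closedBall_zero_iff.2 hcR) with h | h | ⟨i, h⟩
    · exact h
    · exact absurd hc h
    · rw [h]
      exact hattr i
  · push Not at hcR
    exact hA.large (Dyn.attr_of_large hR0 (hfamesc a haρ) hcR.le)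

end Pool.Agent.X325.EP
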