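import Pool.Agent.X325.EP.D

/-!
Polynomials: the main theorem. A weakly expanding polynomial is a limit of hyperbolic polynomials in
every complex line of polynomials through it, except for the lines in finitely many proper
subspaces.
-/

set_option autoImplicit false

open Filter Topology Metric Set Polynomial MeasureTheory
open scoped OnePoint ENNReal

namespace Pool.Agent.X325.EP

open Pool.Agent.H792R2.CE Pool.Agent.H792R2

theorem main {A : (ℂ → ℂ) → ℂ → Prop} (hA : Pred A) {P : ℂ[X]} {d : ℕ} (hd : 2 ≤ d)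
    (hPd : P.natDegree = d) (hdense : Dense {z : ℂ | A (rf P 1) z}) {μ : ℝ} (hμ : 1 < μ)
    (hexp : ∃ᶠ n : ℕ in atTop, ∀ c : ℂ, (wr P 1).eval c = 0 → A (rf P 1) c ∨
      ∃ m ≤ n, μ ^ n ≤ ‖deriv ((rf P 1)^[m]) (rf P 1 c)‖)
    (hsimple : ∀ c : ℂ, (wr P 1).eval c = 0 → A (rf P 1) c ∨
      2 ≤ (wr P 1).rootMultiplicity c ∨
      (volume (closure (Set.range fun m => (rf P 1)^[m] (rf P 1 c))) = 0 ∧
        Summable fun m => ‖deriv ((rf P 1)^[m]) (rf P 1 c)‖⁻¹)) :
    ∃ 𝒱 : Finset (Submodule ℂ ℂ[X]), 𝒱.card ≤ 2 * (d - 1) ∧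
      (∀ V ∈ 𝒱, ∃ H : ℂ[X], H.natDegree < d ∧ H ∉ V) ∧
      ∀ H : ℂ[X], H.natDegree < d → (∀ V ∈ 𝒱, H ∉ V) → ∀ ε : ℝ, 0 < ε →
        ∃ s : ℂ, s ≠ 0 ∧ ‖s‖ < ε ∧ ∀ c : ℂ, (derivative (P + C s * H)).eval c = 0 →
          A (fun z => (P + C s * H).eval z) c := by
  classical
  have hP0 : P ≠ 0 := by
    rintro rfl
    rw [natDegree_zero] at hPd
    omega
  have hN : wr P 1 ≠ 0 := by
    rw [wr_one]
    intro h
    have := Polynomial.derivative_eq_zero.1 h
    omega
  obtain ⟨R, ρe, hR1, hρe, hesc⟩ := Dyn.family_escape (d := d) hd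
    (p := fun _ => P) (Dyn.PF.const P) (fun _ => hPd.le) (by
      rw [← hPd]
      exact leadingCoeff_ne_zero.2 hP0)
  have hR0 : 0 < R := by linarith
  have hescP : ∀ z : ℂ, R ≤ ‖z‖ → 2 * ‖z‖ ≤ ‖P.eval z‖ := fun z hz =>
    (hesc 0 (by simpa using hρe)).2 z hz
  obtain ⟨Ks, hKs⟩ : ∃ Ks : Set ℂ, Ks = {z : ℂ | ¬ A (rf P 1) z} := ⟨_, rfl⟩
  have hKc : IsCompact Ks := by rw [hKs]; exact natt_compact_poly hA hR0 hescP
  have hmemK : ∀ z : ℂ, z ∈ Ks ↔ ¬ A (rf P 1) z := fun z => by rw [hKs]; rfl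
  have hstay : ∀ z ∈ Ks, ∀ n, (rf P 1)^[n] z ∈ Ks := by
    intro z hz n
    rw [hmemK] at hz ⊢
    exact natt_iter_poly hA hz n
  obtain ⟨bad, hbad, hbadc⟩ : ∃ bad : Finset ℂ, (∀ c, c ∈ bad ↔ (wr P 1).eval c = 0 ∧ c ∈ Ks) ∧
      bad.card ≤ d - 1 := by
    refine ⟨(wr P 1).roots.toFinset.filter (fun c => c ∈ Ks), fun c => ?_, ?_⟩
    · rw [Finset.mem_filter, Multiset.mem_toFinset, Polynomial.mem_roots hN]
      rfl
    · refine (Finset.card_filter_le _ _).trans ((Multiset.toFinset_card_le _).trans ?_)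
      refine (Polynomial.card_roots' _).trans ?_
      rw [wr_one, ← hPd]
      exact natDegree_derivative_le P
  have hexpb : ∃ᶠ n : ℕ in atTop, ∀ c ∈ bad,
      ∃ m ≤ n, μ ^ n ≤ ‖deriv ((rf P 1)^[m]) (rf P 1 c)‖ := by
    refine hexp.mono fun n hn c hc => ?_
    rcases hn c ((hbad c).1 hc).1 with h | h
    · exact absurd h ((hmemK c).1 ((hbad c).1 hc).2)
    · exact h
  have hne : ∀ c ∈ bad, ∀ j, deriv ((rf P 1)^[j]) (rf P 1 c) ≠ 0 := by
    intro c hc j
    refine deriv_ne_of_expanding (fun j => ?_) hμ (hexpb.mono fun n hn => hn c hc) j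
    simp
  -- the first family of subspaces
  obtain ⟨V1, hV1⟩ : ∃ V1 : {c // c ∈ bad} → Submodule ℂ ℂ[X],
      ∀ c S, S ∈ V1 c ↔ (derivative S).eval (c : ℂ) = 0 := by
    refine ⟨fun c => { carrier := {S | (derivative S).eval (c : ℂ) = 0}
                       add_mem' := ?_, zero_mem' := ?_, smul_mem' := ?_ }, fun c S => Iff.rfl⟩
    · intro S T hS hT
      simp only [mem_ofPred_eq] at hS hT ⊢
      rw [derivative_add, eval_add, hS, hT, add_zero]
    · simp
    · intro t S hS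
      simp only [mem_ofPred_eq] at hS ⊢
      rw [derivative_smul, eval_smul, hS, smul_zero]
  have hV1p : ∀ c, ∃ H : ℂ[X], H.natDegree < d ∧ H ∉ V1 c := by
    intro c
    refine ⟨X, by rw [natDegree_X]; omega, ?_⟩
    rw [hV1, derivative_X, eval_one]
    exact one_ne_zero
  -- the second family of subspaces
  have hsm : ∀ c ∈ bad, (wr P 1).rootMultiplicity c = 1 → ∀ S : ℂ[X],
      Summable fun j => S.eval ((rf P 1)^[j] c) / (1 : ℂ[X]).eval ((rf P 1)^[j] c) ^ 2 /
        deriv ((rf P 1)^[j]) (rf P 1 c) := by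
    intro c hc hk S
    rcases hsimple c ((hbad c).1 hc).1 with h | h | h
    · exact absurd h ((hmemK c).1 ((hbad c).1 hc).2)
    · omega
    obtain ⟨B, hB⟩ := hKc.exists_bound_of_continuousOn (f := fun z => S.eval z)
      S.continuous.continuousOn
    refine Summable.of_norm_bounded (h.2.mul_left B) fun j => ?_
    rw [eval_one, one_pow, div_one, div_eq_mul_inv, norm_mul, norm_inv]
    exact mul_le_mul_of_nonneg_right (hB _ (hstay c ((hbad c).1 hc).2 j)) (by positivity)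
  have hex2 : ∀ c : {c // c ∈ bad}, ∃ V : Submodule ℂ ℂ[X],
      (∃ H : ℂ[X], H.natDegree < d ∧ H ∉ V) ∧ ((wr P 1).rootMultiplicity (c : ℂ) = 1 →
        ∀ S : ℂ[X], S ∈ V ↔ ∑' j, S.eval ((rf P 1)^[j] c) /
          (1 : ℂ[X]).eval ((rf P 1)^[j] c) ^ 2 / deriv ((rf P 1)^[j]) (rf P 1 c) = 0) := by
    intro c
    by_cases hk : (wr P 1).rootMultiplicity (c : ℂ) = 1
    · have hv : volume (closure (Set.range fun m => (rf P 1)^[m] (rf P 1 c))) = 0 ∧
          Summable fun m => ‖deriv ((rf P 1)^[m]) (rf P 1 c)‖⁻¹ := by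
        rcases hsimple c ((hbad c).1 c.2).1 with h | h | h
        · exact absurd h ((hmemK c).1 ((hbad c).1 c.2).2)
        · omega
        · exact h
      refine ⟨{ carrier := {S | ∑' j, S.eval ((rf P 1)^[j] c) /
                  (1 : ℂ[X]).eval ((rf P 1)^[j] c) ^ 2 / deriv ((rf P 1)^[j]) (rf P 1 c) = 0}
                add_mem' := ?_, zero_mem' := ?_, smul_mem' := ?_ }, ?_, fun _ S => Iff.rfl⟩
      · intro S T hS hT
        simp only [mem_ofPred_eq] at hS hT ⊢
        rw [← add_zero (0 : ℂ)]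
        nth_rw 1 [← hS]
        rw [← hT, ← (hsm _ c.2 hk S).tsum_add (hsm _ c.2 hk T)]
        refine tsum_congr fun j => ?_
        rw [Polynomial.eval_add]
        ring
      · simp
      · intro t S hS
        simp only [mem_ofPred_eq] at hS ⊢
        rw [← mul_zero t, ← hS, ← tsum_mul_left]
        refine tsum_congr fun j => ?_
        rw [Polynomial.eval_smul, smul_eq_mul]
        ring
      · obtain ⟨S, h1, h2⟩ := transversal_poly (Q := 1) hd rfl hPd (Rr := R) (fun z hz => by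
          have := hescP z hz
          have := norm_nonneg z
          linarith) ((hbad _).1 c.2).1 hN hKc (fun j => hstay c ((hbad _).1 c.2).2 j)
          (fun z _ => by simp) (hne c c.2) hv.2
          (A₀ := {z : ℂ | A (rf P 1) z}) (attr_open hA hR0 hescP) hdense
          (fun x hx h => ((hmemK x).1 h) hx)
          (by
            filter_upwards [wandering hR0 hescP] with x hx h
            exact hx (hA.attr h)) hv.1
        refine ⟨S, by omega, ?_⟩
        exact h2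
    · obtain ⟨H, h1, h2⟩ := hV1p c
      exact ⟨V1 c, ⟨H, h1, h2⟩, fun h => absurd h hk⟩
  choose V2 hV2p hV2 using hex2
  refine ⟨Finset.univ.image (fun p : {c // c ∈ bad} × Bool => if p.2 then V2 p.1 else V1 p.1),
    ?_, ?_, ?_⟩
  · refine Finset.card_image_le.trans ?_
    rw [Finset.card_univ, Fintype.card_prod, Fintype.card_coe, Fintype.card_bool]
    omega
  · intro V hV
    rw [Finset.mem_image] at hV
    obtain ⟨⟨c, b⟩, -, rfl⟩ := hV
    cases b
    · simpa using hV1p c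
    · simpa using hV2p c
  · intro H hHd hH ε hε
    have hH1 : ∀ c : {c // c ∈ bad}, H ∉ V1 c := fun c =>
      hH _ (Finset.mem_image.2 ⟨(c, false), Finset.mem_univ _, by simp⟩)
    have hH2 : ∀ c : {c // c ∈ bad}, H ∉ V2 c := fun c =>
      hH _ (Finset.mem_image.2 ⟨(c, true), Finset.mem_univ _, by simp⟩)
    have hred : H * 1 - P * 0 = H := by ring
    obtain ⟨s, hs0, hsε, hs⟩ := core_dir hA (P := P) (Q := 1) (H := H) (G := 0) hd rfl rfl hPd
      hHd hdense hμ hexp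
      (by
        intro c hc hAc
        have h1 := hH1 ⟨c, (hbad c).2 ⟨hc, (hmemK c).2 hAc⟩⟩
        rw [hV1] at h1
        rw [wr_one]
        simpa [wr] using h1)
      (by
        intro c hc hAc hk
        have hcb : c ∈ bad := (hbad c).2 ⟨hc, (hmemK c).2 hAc⟩
        rw [hred]
        refine ⟨hsm c hcb hk H, ?_⟩
        have h1 := hH2 ⟨c, hcb⟩
        rw [hV2 ⟨c, hcb⟩ hk] at h1
        exact h1) ε hε
    refine ⟨s, hs0, hsε, fun c hc => ?_⟩
    have h1 := hs c (by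
      rw [mul_zero, add_zero, wr_one]
      exact hc)
    rw [mul_zero, add_zero, rf_one] at h1
    exact h1

/-- a vector outside finitely many proper subspaces -/
theorem exists_notMem {d : ℕ} (𝒱 : Finset (Submodule ℂ ℂ[X]))
    (h𝒱 : ∀ V ∈ 𝒱, ∃ H : ℂ[X], H.natDegree < d ∧ H ∉ V) :
    ∃ H : ℂ[X], H.degree < d ∧ ∀ V ∈ 𝒱, H ∉ V := by
  classical
  have hfin : (Set.range fun V : {V // V ∈ 𝒱} =>
      (V : Submodule ℂ ℂ[X]).comap (degreeLT ℂ d).subtype).Finite := Set.finite_range _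
  have h1 := Subspace.biUnion_ne_univ_of_top_notMem
    (k := ℂ) (E := degreeLT ℂ d) (s := Finset.univ.image (fun V : {V // V ∈ 𝒱} =>
      (V : Submodule ℂ ℂ[X]).comap (degreeLT ℂ d).subtype)) ?_
  · rw [Set.ne_univ_iff_exists_notMem] at h1
    obtain ⟨H, hH⟩ := h1
    refine ⟨H, mem_degreeLT.1 H.2, ?_⟩
    intro V hV hHV
    apply hH
    rw [Set.mem_iUnion₂]
    exact ⟨V.comap (degreeLT ℂ d).subtype,
      Finset.mem_image.2 ⟨⟨V, hV⟩, Finset.mem_univ _, rfl⟩, hHV⟩
  · intro htop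
    rw [Finset.mem_image] at htop
    obtain ⟨⟨V, hV⟩, -, h2⟩ := htop
    obtain ⟨H, h3, h4⟩ := h𝒱 V hV
    apply h4
    have h5 : (⟨H, mem_degreeLT.2 (lt_of_le_of_lt degree_le_natDegree (by exact_mod_cast h3))⟩ :
        degreeLT ℂ d) ∈ V.comap (degreeLT ℂ d).subtype := by
      rw [h2]
      trivial
    exact h5

end Pool.Agent.X325.EP
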